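import Pool.Agent.RX.RCG.GlueA_1
import Pool.Agent.RX.RCG.GlueA_2

/-! The exponential structure: own gain, A-lemma, N-part main kernel in terms of
`E_{p|q} = ∫ f_pq / a_p` (MP_73ccd0_lc, general graphs). -/

namespace Pool.Agent.RX.RCG

open Set Finset Pool.Agent.RX.RCRSHalf

set_option linter.unusedSectionVars false

variable {V : Type*} [Fintype V] [DecidableEq V]
variable {h : ℝ → V → V → ℝ} {H : V → V → ℝ → ℝ}

/-- the density of `E_{p|q}` -/
noncomputable def dE (h : ℝ → V → V → ℝ) (p q : V) (s : ℝ) : ℝ := h s p q * pp h p q s / bb h ∅ p s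

theorem dE_cont (hh : Haz h H) (p q : V) : ContinuousOn (dE h p q) (Icc 0 1) := by
  have h1 : ContinuousOn (fun s => h s p q) (Icc (0 : ℝ) 1) := (hh.cont p q).continuousOn
  exact (h1.mul (pp_cont hh p q)).div (bb_cont hh ∅ p)
    fun s hs => (bb_pos hh (Finset.notMem_empty p) hs).ne'

/-- The exponent functions `E_{p|q}` exist. -/
theorem exists_E (hh : Haz h H) (p q : V) {t : ℝ} (ht : t ∈ Icc (0 : ℝ) 1) :
    ∃ E : ℝ → ℝ, E 0 = 0 ∧ ∀ s ∈ Icc 0 t, HasDerivAt E (dE h p q s) s :=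
  exists_prim ht.1 ((dE_cont hh p q).mono (Icc_subset_Icc le_rfl ht.2))

end Pool.Agent.RX.RCG
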