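import Pool.Agent.RX.RCG.Base_1

/-! Existence of solutions on `[0, 1]` (MP_73ccd0_lc, general graphs). -/

namespace Pool.Agent.RX.RCG

open Set Finset Pool.Agent.RX.RCRSHalf

set_option linter.unusedSectionVars false

variable {V : Type*} [Fintype V] [DecidableEq V]

/-- existence of the forward law on `[0, 1]` -/
theorem exists_law2 {hz : ℝ → (Finset V → ℝ) → V → V → ℝ} (hU : ∀ a b, UBL fun t y => hz t y a b)
    (h0 : ∀ t y a b, 0 ≤ hz t y a b) (U : Finset V) :
    ∃ μ : ℝ → Finset V → ℝ, IsLaw (fun t => hz t (μ t)) U 1 μ ∧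
      ∀ F, Continuous fun t => μ (max 0 (min 1 t)) F := by
  let cl : (Finset V → ℝ) → Finset V → ℝ := fun y F => max 0 (min 1 (y F))
  let f : ℝ → (Finset V → ℝ) → (Finset V → ℝ) := fun t y F => fwd (hz t y) (cl y) F
  have hgen : ∀ F0 F, UBL fun t y => gen (hz t y) (pt F0) F := by
    intro F0 F
    refine (UBL.const (1 / 2)).mul (UBL.sum _ fun a _ => UBL.sum _ fun b _ => ?_)
    exact (hU a b).mul (UBL.const _)
  have hf : ∀ F, UBL fun t y => f t y F := by
    intro F
    exact UBL.sum _ fun G _ => (UBL.coord G).mul (hgen F G)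
  obtain ⟨α, hα0, hα⟩ := exists_sol2 f hf (t0 := 0) ⟨by norm_num, by norm_num⟩ (pt U)
  have hmem : ∀ r ∈ Icc (0 : ℝ) 1, r ∈ Ioo (-1 : ℝ) 2 := fun r hr =>
    ⟨by linarith [hr.1], by linarith [hr.2]⟩
  have cl0 : ∀ y F, 0 ≤ cl y F := fun y F => le_max_left _ _
  have pt0 : ∀ F G : Finset V, 0 ≤ pt F G := fun F G => by unfold pt; split_ifs <;> norm_num
  have hge : ∀ F, ∀ r ∈ Icc (0 : ℝ) 1, 0 ≤ α r F := by
    intro F0
    refine nonneg_of_forward (fun r hr => hα r (hmem r hr) F0) (by rw [hα0]; exact pt0 _ _) ?_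
    intro r hr hlt
    have hcl : cl (α r) F0 = 0 := by
      simp only [cl]; exact max_eq_left ((min_le_right _ _).trans hlt.le)
    simp only [f]
    unfold fwd
    refine Finset.sum_nonneg fun F _ => ?_
    by_cases hF : F = F0
    · subst hF; rw [hcl, zero_mul]
    · refine mul_nonneg (cl0 _ _) ?_
      unfold gen
      have : pt F0 F = 0 := by unfold pt; rw [if_neg hF]
      rw [this]
      refine mul_nonneg (by norm_num) (Finset.sum_nonneg fun a _ => Finset.sum_nonneg fun b _ => ?_)
      rw [sub_zero]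
      exact mul_nonneg (h0 _ _ _ _) (pt0 _ _)
  have hsum : ∀ r ∈ Icc (0 : ℝ) 1, HasDerivAt (fun t => ∑ F : Finset V, α t F) 0 r := by
    intro r hr
    have h1 : HasDerivAt (fun t => ∑ F : Finset V, α t F) (∑ F : Finset V, f r (α r) F) r :=
      HasDerivAt.fun_sum fun F _ => hα r (hmem r hr) F
    have h2 : ∑ F : Finset V, f r (α r) F = 0 := by
      have := sum_fwd (hz r (α r)) (cl (α r)) (fun _ => 1)
      simp only [mul_one] at this
      simp only [f]
      rw [this]
      simp [gen_const]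
    rwa [h2] at h1
  have h00 : ∑ F : Finset V, α 0 F = 1 := by rw [hα0]; simp [pt]
  have htot : ∀ r ∈ Icc (0 : ℝ) 1, ∑ F : Finset V, α r F = 1 := by
    intro r hr
    have e1 := nonneg_of_forward (U := fun t => ∑ F : Finset V, α t F - 1) (U' := fun _ => 0)
      (a := 0) (s := 1) (fun r hr => by simpa using (hsum r hr).sub_const 1)
      (by simp [h00]) (fun _ _ _ => le_rfl) r hr
    have e2 := nonneg_of_forward (U := fun t => 1 - ∑ F : Finset V, α t F) (U' := fun _ => 0)
      (a := 0) (s := 1) (fun r hr => by simpa using (hsum r hr).const_sub 1)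
      (by simp [h00]) (fun _ _ _ => le_rfl) r hr
    linarith
  have hle : ∀ F, ∀ r ∈ Icc (0 : ℝ) 1, α r F ≤ 1 := by
    intro F r hr
    rw [← htot r hr]
    exact Finset.single_le_sum (f := fun F => α r F) (fun G _ => hge G r hr) (Finset.mem_univ F)
  have hcl : ∀ r ∈ Icc (0 : ℝ) 1, cl (α r) = α r := by
    intro r hr
    funext F
    simp only [cl]
    rw [min_eq_right (hle F r hr), max_eq_right (hge F r hr)]
  refine ⟨α, ⟨hα0, fun F r hr => ?_, hge, htot⟩, fun F => ?_⟩
  · have := hα r (hmem r hr) F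
    simp only [f] at this
    rw [hcl r hr] at this
    exact this
  · have hcl' : Continuous fun t : ℝ => max 0 (min 1 t) := by fun_prop
    rw [continuous_iff_continuousAt]
    intro t
    have hm : max 0 (min 1 t) ∈ Icc (0 : ℝ) 1 := ⟨le_max_left _ _, max_le zero_le_one (min_le_left _ _)⟩
    exact ContinuousAt.comp (f := fun t => max 0 (min 1 t)) (g := fun s => α s F)
      (hα _ (hmem _ hm) F).continuousAt hcl'.continuousAt

end Pool.Agent.RX.RCG
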