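import Pool.Agent.RX.RCRSHalf.Gen

/-! Comparison of the backward function of several targets with the product of the target functions
(MP_73ccd0_lc, general graphs). -/

namespace Pool.Agent.RX.RCG

open Set Finset Pool.Agent.RX.RCRSHalf

set_option linter.unusedSectionVars false

variable {V : Type*} [Fintype V] [DecidableEq V]

/-- total rate -/
noncomputable def rate (h : V → V → ℝ) (F : Finset V) : ℝ := (1 / 2) * ∑ a ∈ F, ∑ b ∈ F, h a b

theorem rate_nonneg {h : V → V → ℝ} (h0 : ∀ a b, 0 ≤ h a b) (F : Finset V) : 0 ≤ rate h F :=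
  mul_nonneg (by norm_num) (Finset.sum_nonneg fun _ _ => Finset.sum_nonneg fun _ _ => h0 _ _)

theorem gen_smul (h : V → V → ℝ) (c : ℝ) (φ : Finset V → ℝ) (F : Finset V) :
    gen h (fun G => c * φ G) F = c * gen h φ F := (genL h F).map_smul c φ

section cmp

variable {h : ℝ → V → V → ℝ} {ι : Type*} [DecidableEq ι] {W : Finset ι} {k : ι → ℝ → V → ℝ}
  {s : ℝ} {R : ι → Finset V → ℝ → ℝ} {S : Finset V → ℝ → ℝ}

end cmp

end Pool.Agent.RX.RCG
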