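import Mathlib

/-! The certificate, abstract part: weights, densities, free probabilities (MP_73ccd0_lc). -/

namespace Pool.Agent.RX.RCG.Ct

open Finset Set

set_option linter.unusedSectionVars false

variable {V : Type*} [Fintype V] [DecidableEq V]

/-- weights on the extended vertex set; `P` marks the real vertices, the other vertices are
pendant (they have a single neighbour, which is real) -/
structure Wt (x : V → V → ℝ) (P : V → Prop) (d : ℝ) : Prop where
  d0 : 0 ≤ d
  d1 : d ≤ 1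
  le : ∀ a b, P a → P b → x a b ≤ d
  symm : ∀ a b, x a b = x b a
  nonneg : ∀ a b, 0 ≤ x a b
  diag : ∀ a, x a a = 0
  row : ∀ a, ∑ b, x a b ≤ 1
  row1 : ∀ a, P a → ∑ b, x a b = 1
  pend : ∀ a b, ¬ P b → x a b ≠ 0 → P a
  pend1 : ∀ a b c, ¬ P b → x a b ≠ 0 → x b c ≠ 0 → c = a

variable {x : V → V → ℝ} {P : V → Prop} [DecidablePred P] {d : ℝ}

/-- the real part of the weights -/
noncomputable def xr (x : V → V → ℝ) (P : V → Prop) [DecidablePred P] (a b : V) : ℝ :=
  if P a ∧ P b then x a b else 0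

theorem xr_nonneg (hx : Wt x P d) (a b : V) : 0 ≤ xr x P a b := by
  unfold xr; split_ifs; exacts [hx.nonneg a b, le_rfl]

theorem xr_le (hx : Wt x P d) (a b : V) : xr x P a b ≤ x a b := by
  unfold xr; split_ifs; exacts [le_rfl, hx.nonneg a b]

theorem xr_symm (hx : Wt x P d) (a b : V) : xr x P a b = xr x P b a := by
  unfold xr; rw [hx.symm a b]; simp only [and_comm]

theorem xr_diag (hx : Wt x P d) (a : V) : xr x P a a = 0 := by
  unfold xr; rw [hx.diag]; simp

theorem xr_row (hx : Wt x P d) (a : V) : ∑ b, xr x P a b ≤ 1 :=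
  (Finset.sum_le_sum fun b _ => xr_le hx a b).trans (hx.row a)

theorem xr_le_d (hx : Wt x P d) (a b : V) : xr x P a b ≤ d := by
  unfold xr; split_ifs with h; exacts [hx.le a b h.1 h.2, hx.d0]

theorem xr_add_le (hx : Wt x P d) {a b c : V} (hbc : b ≠ c) : xr x P a b + xr x P a c ≤ 1 := by
  refine le_trans ?_ (xr_row hx a)
  rw [← Finset.sum_pair (f := fun b => xr x P a b) hbc]
  exact Finset.sum_le_sum_of_subset_of_nonneg (Finset.subset_univ _) fun d _ _ =>
    xr_nonneg hx a d

variable {h : ℝ → V → V → ℝ} {H : V → V → ℝ → ℝ} {S W : V → V → ℝ}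

theorem xmem (hx : Wt x P d) (a b : V) : xr x P a b ∈ Icc (0 : ℝ) d :=
  ⟨xr_nonneg hx a b, xr_le_d hx a b⟩

variable {ps : ℝ → ℝ → ℝ}

end Pool.Agent.RX.RCG.Ct
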