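import Mathlib

/-! Context: hazards, target functions, laws (MP_73ccd0_lc, general graphs). -/

namespace Pool.Agent.RX.RCG

open Set Finset

set_option linter.unusedSectionVars false

variable {V : Type*} [Fintype V] [DecidableEq V]

/-- symmetric continuous bounded hazards with cumulative hazards `H` -/
structure Haz (h : ℝ → V → V → ℝ) (H : V → V → ℝ → ℝ) : Prop where
  symm : ∀ t a b, h t a b = h t b a
  diag : ∀ t a, h t a a = 0
  nonneg : ∀ t a b, 0 ≤ h t a b
  cont : ∀ a b, Continuous fun t => h t a b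
  bdd : ∃ C, ∀ t a b, h t a b ≤ C
  Hd : ∀ a b t, HasDerivAt (H a b) (h t a b) t
  H0 : ∀ a b, H a b 0 = 0

section

variable {h : ℝ → V → V → ℝ} {H : V → V → ℝ → ℝ}

theorem Haz.Hmono (hh : Haz h H) (a b : V) : Monotone (H a b) :=
  monotone_of_deriv_nonneg (fun x => (hh.Hd a b x).differentiableAt)
    (fun x => by rw [(hh.Hd a b x).deriv]; exact hh.nonneg x a b)

end

end Pool.Agent.RX.RCG
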