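import Pool.Agent.RX.RCG.Base_1
import Pool.Agent.RX.RCG.Ctx_1
import Pool.Agent.RX.RCRSHalf.Dual

/-! Context: hazards, target functions, laws (MP_73ccd0_lc, general graphs). -/

namespace Pool.Agent.RX.RCG

open Set Finset Pool.Agent.RX.RCRSHalf

set_option linter.unusedSectionVars false

variable {V : Type*} [Fintype V] [DecidableEq V]

/-- target function of the vertex `u` with horizon `t` -/
structure IsTgt (h : ℝ → V → V → ℝ) (u : V) (t : ℝ) (R : Finset V → ℝ → ℝ) : Prop where
  ev : IsEv h (fun r a => h r u a) (fun _ => 0) (fun _ => 0) t R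
  end_ : ∀ F, R F t = 1

/-- expectation of `ψ (F \ W)` on the event that `W` is free -/
noncomputable def ex (y : Finset V → ℝ) (W : Finset V) (ψ : Finset V → ℝ) : ℝ :=
  ∑ F : Finset V, y F * (if W ⊆ F then ψ (F \ W) else 0)

/-- sum of the cumulative hazards over the pairs inside `W` -/
noncomputable def HW (H : V → V → ℝ → ℝ) (W : Finset V) (s : ℝ) : ℝ :=
  (1 / 2) * ∑ a ∈ W, ∑ b ∈ W, H a b s

theorem ex_one (y : Finset V → ℝ) (W : Finset V) : ex y W (fun _ => 1) = pr y W := rfl

theorem ex_smul (y : Finset V → ℝ) (W : Finset V) (c : ℝ) (ψ : Finset V → ℝ) :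
    ex y W (fun F => c * ψ F) = c * ex y W ψ := by
  unfold ex
  rw [Finset.mul_sum]
  refine Finset.sum_congr rfl fun F _ => ?_
  split_ifs <;> ring

theorem ex_add (y : Finset V → ℝ) (W : Finset V) (ψ ψ' : Finset V → ℝ) :
    ex y W (fun F => ψ F + ψ' F) = ex y W ψ + ex y W ψ' := by
  unfold ex
  rw [← Finset.sum_add_distrib]
  refine Finset.sum_congr rfl fun F _ => ?_
  split_ifs <;> ring

section

variable {h : ℝ → V → V → ℝ} {H : V → V → ℝ → ℝ}

theorem Haz.Hsymm (hh : Haz h H) (a b : V) (t : ℝ) : H a b t = H b a t := by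
  have hd : ∀ x, HasDerivAt (fun x => H a b x - H b a x) 0 x := fun x => by
    have := (hh.Hd a b x).sub (hh.Hd b a x)
    rwa [hh.symm x a b, sub_self] at this
  have := is_const_of_deriv_eq_zero (f := fun x => H a b x - H b a x)
    (fun x => (hd x).differentiableAt) (fun x => (hd x).deriv) t 0
  simp only [hh.H0, sub_self] at this
  linarith

theorem Haz.Hdiag (hh : Haz h H) (a : V) (t : ℝ) : H a a t = 0 := by
  have hd : ∀ x, HasDerivAt (fun x => H a a x) 0 x := fun x => by
    have := hh.Hd a a x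
    rwa [hh.diag x a] at this
  have := is_const_of_deriv_eq_zero (f := fun x => H a a x)
    (fun x => (hd x).differentiableAt) (fun x => (hd x).deriv) t 0
  simpa only [hh.H0] using this

theorem Haz.Hnn (hh : Haz h H) (a b : V) {t : ℝ} (ht : 0 ≤ t) : 0 ≤ H a b t := by
  have := hh.Hmono a b ht
  rwa [hh.H0] at this

theorem Haz.exists_ev (hh : Haz h H) (W : Finset V) {s : ℝ} (hs : s ∈ Icc (0 : ℝ) 1)
    (ψ : Finset V → ℝ) (hψ : ∀ F, 0 ≤ ψ F) :
    ∃ R : Finset V → ℝ → ℝ, IsEv h (fun r a => ∑ w ∈ W, h r w a) (fun _ => 0) (fun _ => 0) s R ∧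
      ∀ F, R F s = ψ F := by
  obtain ⟨C, hC⟩ := hh.bdd
  have hC1 : ∀ t a b, h t a b ≤ |C| := fun t a b => (hC t a b).trans (le_abs_self C)
  refine RCG.exists_ev (C := |C| + W.card * |C|) hh.cont
    (fun t a b => (hC1 t a b).trans (le_add_of_nonneg_right (by positivity))) hh.nonneg
    (fun a => continuous_finsetSum _ fun w _ => hh.cont w a) (fun t a => ?_)
    (fun t a => Finset.sum_nonneg fun w _ => hh.nonneg _ _ _) continuous_const
    (fun t => by positivity) (fun t => le_rfl) continuous_const (fun t => by positivity)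
    (fun t => le_rfl) hs ψ hψ
  have : ∑ w ∈ W, h t w a ≤ W.card * |C| := by
    refine (Finset.sum_le_card_nsmul _ _ _ fun w _ => hC1 t w a).trans (le_of_eq ?_)
    simp
  have h2 : 0 ≤ |C| := abs_nonneg C
  linarith

theorem Haz.exists_tgt (hh : Haz h H) (u : V) {t : ℝ} (ht : t ∈ Icc (0 : ℝ) 1) :
    ∃ R, IsTgt h u t R := by
  obtain ⟨R, hR, hR1⟩ := hh.exists_ev {u} ht (fun _ => 1) (fun _ => zero_le_one)
  exact ⟨R, by simpa using hR, hR1⟩

open Classical in
/-- the target function -/
noncomputable def tgt (h : ℝ → V → V → ℝ) (u : V) (t : ℝ) : Finset V → ℝ → ℝ :=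
  if hex : ∃ R, IsTgt h u t R then hex.choose else fun _ _ => 1

open Classical in
/-- the law of the free set in the graph without the vertices of `D` -/
noncomputable def lw (h : ℝ → V → V → ℝ) (D : Finset V) : ℝ → Finset V → ℝ :=
  if hex : ∃ μ, IsLaw h Dᶜ 1 μ then hex.choose else fun _ _ => 0

theorem Haz.tgt (hh : Haz h H) (u : V) {t : ℝ} (ht : t ∈ Icc (0 : ℝ) 1) :
    IsTgt h u t (tgt h u t) := by
  have := hh.exists_tgt u ht
  unfold RCG.tgt
  rw [dif_pos this]
  exact this.choose_spec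

/-- probability that `u` is free at time `t` in the graph without `D` -/
noncomputable def bb (h : ℝ → V → V → ℝ) (D : Finset V) (u : V) (t : ℝ) : ℝ :=
  pr (lw h D t) {u}

/-- probability that `a` and `b` are free at time `t` -/
noncomputable def pp (h : ℝ → V → V → ℝ) (a b : V) (t : ℝ) : ℝ :=
  pr (lw h ∅ t) {a, b}

end

end Pool.Agent.RX.RCG
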