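import Pool.Agent.RX.RCG.Base_2
import Pool.Agent.RX.RCG.Ctx_2

/-! Context: hazards, target functions, laws (MP_73ccd0_lc, general graphs). -/

namespace Pool.Agent.RX.RCG

open Set Finset Pool.Agent.RX.RCRSHalf

set_option linter.unusedSectionVars false

variable {V : Type*} [Fintype V] [DecidableEq V]

section

variable {h : ℝ → V → V → ℝ} {H : V → V → ℝ → ℝ}

theorem Haz.exists_law (hh : Haz h H) (D : Finset V) :
    ∃ μ : ℝ → Finset V → ℝ, IsLaw h Dᶜ 1 μ := by
  obtain ⟨C, hC⟩ := hh.bdd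
  obtain ⟨μ, hμ, _⟩ := exists_law2 (hz := fun t (_ : Finset V → ℝ) a b => h t a b)
    (fun a b => UBL.ofTime (hh.cont a b) (C := |C|) fun t => by
      rw [abs_of_nonneg (hh.nonneg t a b)]; exact (hC t a b).trans (le_abs_self C))
    (fun t _ a b => hh.nonneg t a b) Dᶜ
  exact ⟨μ, hμ⟩

theorem Haz.lw (hh : Haz h H) (D : Finset V) : IsLaw h Dᶜ 1 (lw h D) := by
  have := hh.exists_law D
  unfold RCG.lw
  rw [dif_pos this]
  exact this.choose_spec

end

end Pool.Agent.RX.RCG
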