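import Mathlib

/-! Stage 2 of the certificate, abstract part: densities and free probabilities with several
functionals (MP_73ccd0_lc). -/

namespace Pool.Agent.RX.RCG.Cu

open Finset Set

set_option linter.unusedSectionVars false

variable {V : Type*} [Fintype V] [DecidableEq V]
variable {x : V → V → ℝ} {P : V → Prop} [DecidablePred P]

variable {h : ℝ → V → V → ℝ} {H : V → V → ℝ → ℝ} {F : V → V → Fin 3 → ℝ}

variable {ps po : ℝ → ℝ → ℝ}

/-- the sum of a function of the neighbours of `u` without the edge `u v` -/
theorem sum_split' {u v : V} (huv : u ≠ v) (f : V → ℝ) (hf : f u = 0) :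
    ∑ b, f b = f v + ∑ b ∈ ({u, v} : Finset V)ᶜ, f b := by
  rw [← Finset.sum_add_sum_compl ({u, v} : Finset V), Finset.sum_pair huv, hf, zero_add]

end Pool.Agent.RX.RCG.Cu
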