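import Mathlib

/-! Weights, walk matrices and resolvents (MP_73ccd0_lc, general graphs). -/

namespace Pool.Agent.RX.RCG

open Set Finset Matrix

set_option linter.unusedSectionVars false

variable {V : Type*} [Fintype V] [DecidableEq V]

/-- symmetric substochastic weights -/
structure Wt (X : V → V → ℝ) : Prop where
  symm : ∀ a b, X a b = X b a
  nonneg : ∀ a b, 0 ≤ X a b
  diag : ∀ a, X a a = 0
  row : ∀ a, ∑ b, X a b ≤ 1

variable {X : V → V → ℝ}

section res

variable {B : Matrix V V ℝ} {θ : ℝ}

end res

end Pool.Agent.RX.RCG
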