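import Pool.Agent.RX.RCG.Ctx_1
import Pool.Agent.RX.RCG.Wk

/-! The context of the explicit bounds: hazards dominated by `μ x` with clock `M`, `M t ≤ 23/20`;
explicit closures for one target and for a group of two targets (MP_73ccd0_lc, general graphs). -/

namespace Pool.Agent.RX.RCG

open Set Finset Matrix

set_option linter.unusedSectionVars false

variable {V : Type*} [Fintype V] [DecidableEq V]
variable {h : ℝ → V → V → ℝ} {H : V → V → ℝ → ℝ} {X : V → V → ℝ} {M μ : ℝ → ℝ} {t : ℝ}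

/-- the context -/
structure Cx (h : ℝ → V → V → ℝ) (H : V → V → ℝ → ℝ) (X : V → V → ℝ) (M μ : ℝ → ℝ) (t : ℝ) :
    Prop where
  hh : Haz h H
  hX : Wt X
  t0 : 0 ≤ t
  t1 : t ≤ 1
  Md : ∀ r ∈ Icc 0 t, HasDerivAt M (μ r) r
  μ0 : ∀ r ∈ Icc 0 t, 0 ≤ μ r
  M0 : M 0 = 0
  Mt : M t ≤ 23 / 20
  le : ∀ r ∈ Icc 0 t, ∀ a b, h r a b ≤ μ r * X a b

/-! ### Rows -/

/-! ### Constants -/

/-! ### Sup bounds -/

/-! ### The closures -/

end Pool.Agent.RX.RCG
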