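import Pool.Agent.RX.RCG.Cmp
import Pool.Agent.RX.RCG.Ctx_3

/-! Duality with arbitrary terminal values, and comparison at the level of expectations
(MP_73ccd0_lc, general graphs). -/

namespace Pool.Agent.RX.RCG

open Set Finset Pool.Agent.RX.RCRSHalf

set_option linter.unusedSectionVars false

variable {V : Type*} [Fintype V] [DecidableEq V]
variable {h : ℝ → V → V → ℝ} {H : V → V → ℝ → ℝ}

theorem Haz.HWd (hh : Haz h H) (W : Finset V) (r : ℝ) :
    HasDerivAt (HW H W) ((1 / 2) * ∑ a ∈ W, ∑ b ∈ W, h r a b) r := by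
  unfold HW
  refine HasDerivAt.const_mul _ ?_
  exact HasDerivAt.fun_sum fun a _ => HasDerivAt.fun_sum fun b _ => hh.Hd a b r

theorem Haz.HW0 (hh : Haz h H) (W : Finset V) : HW H W 0 = 0 := by
  unfold HW
  simp [hh.H0]

/-- duality -/
theorem duality2 (hh : Haz h H) {U : Finset V} {μ : ℝ → Finset V → ℝ} (hμ : IsLaw h U 1 μ)
    {W : Finset V} (hW : W ⊆ U) {s : ℝ} (hs : s ∈ Icc (0 : ℝ) 1) {S : Finset V → ℝ → ℝ}
    (hS : IsEv h (fun t z => ∑ w ∈ W, h t w z) (fun _ => 0) (fun _ => 0) s S) :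
    ex (μ s) W (fun F => S F s) = Real.exp (-HW H W s) * S (U \ W) 0 := by
  set E : ℝ → ℝ := fun r => Real.exp (-(HW H W s - HW H W r)) with hE
  set φ : ℝ → Finset V → ℝ := fun r F => E r * (if W ⊆ F then S (F \ W) r else 0) with hφ
  set φ' : ℝ → Finset V → ℝ := fun r F =>
    if W ⊆ F then E r * ((1 / 2) * ∑ a ∈ W, ∑ b ∈ W, h r a b) * S (F \ W) r
      + E r * (-(gen (h r) (fun G => S G r) (F \ W)
        - (∑ a ∈ F \ W, ∑ w ∈ W, h r w a) * S (F \ W) r - 0 * S (F \ W) r + 0)) else 0 with hφ'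
  have hEd : ∀ r, HasDerivAt E (E r * ((1 / 2) * ∑ a ∈ W, ∑ b ∈ W, h r a b)) r := by
    intro r
    have h1 := ((hh.HWd W r).const_sub (HW H W s)).neg.exp
    simpa [hE] using h1
  have hd : ∀ r ∈ Icc 0 s, ∀ F, HasDerivAt (fun r => φ r F) (φ' r F) r := by
    intro r hr F
    simp only [hφ, hφ']
    by_cases hWF : W ⊆ F
    · simp only [if_pos hWF]
      exact (hEd r).mul (hS.deriv (F \ W) r hr)
    · simp only [if_neg hWF, mul_zero]
      exact hasDerivAt_const _ _
  have hzero : ∀ r ∈ Icc 0 s, ∀ F, gen (h r) (φ r) F + φ' r F = 0 := by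
    intro r hr F
    by_cases hWF : W ⊆ F
    · have e1 : gen (h r) (φ r) F = E r * gen (h r) (fun G => if W ⊆ G then S (G \ W) r else 0) F :=
        gen_smul (h r) (E r) _ F
      rw [e1, gen_super (h r) (hh.symm r) W F hWF (fun G => S G r)]
      simp only [hφ', if_pos hWF]
      ring
    · have e1 : gen (h r) (φ r) F = 0 := by
        have : gen (h r) (φ r) F = gen (h r) (fun _ => 0) F := by
          refine gen_congr fun G hG => ?_
          simp only [hφ]
          rw [if_neg (fun hh => hWF (hh.trans hG)), mul_zero]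
        rw [this, gen_const]
      rw [e1]
      simp only [hφ', if_neg hWF, add_zero]
  have hD : ∀ r ∈ Icc 0 s, HasDerivAt (fun r => ∑ F : Finset V, μ r F * φ r F) 0 r := by
    intro r hr
    have := hμ.deriv_sum (φ := φ) (φ' := φ') (t := r) ⟨hr.1, hr.2.trans hs.2⟩ (hd r hr)
    simpa [hzero r hr] using this
  have hss : s ∈ Icc 0 s := ⟨hs.1, le_rfl⟩
  have hconst : ∑ F : Finset V, μ s F * φ s F = ∑ F : Finset V, μ 0 F * φ 0 F := by
    have e1 := nonneg_of_forward
      (U := fun t => ∑ F : Finset V, μ t F * φ t F - ∑ F : Finset V, μ 0 F * φ 0 F)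
      (U' := fun _ => 0) (a := 0) (s := s) (fun r hr => by simpa using hD r hr)
      (by simp) (fun _ _ _ => le_rfl) s hss
    have e2 := nonneg_of_forward
      (U := fun t => ∑ F : Finset V, μ 0 F * φ 0 F - ∑ F : Finset V, μ t F * φ t F)
      (U' := fun _ => 0) (a := 0) (s := s) (fun r hr => by simpa using (hD r hr).const_sub (∑ F : Finset V, μ 0 F * φ 0 F))
      (by simp) (fun _ _ _ => le_rfl) s hss
    linarith
  have l1 : ∑ F : Finset V, μ s F * φ s F = ex (μ s) W (fun F => S F s) := by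
    unfold ex
    refine Finset.sum_congr rfl fun F _ => ?_
    simp only [hφ, hE]
    simp
  have l2 : ∑ F : Finset V, μ 0 F * φ 0 F = Real.exp (-HW H W s) * S (U \ W) 0 := by
    rw [hμ.start]
    simp only [pt, ite_mul, one_mul, zero_mul, Finset.sum_ite_eq', Finset.mem_univ, if_true]
    simp only [hφ, hE, if_pos hW, hh.HW0, sub_zero]
  rw [← l1, hconst, l2]

theorem compl_sdiff_union (D W : Finset V) : Dᶜ \ W = (D ∪ W)ᶜ := by
  ext a
  simp only [Finset.mem_sdiff, Finset.mem_compl, Finset.mem_union]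
  tauto

variable {W D : Finset V} {s : ℝ} {R : V → Finset V → ℝ → ℝ} {P N : V → V → ℝ → ℝ}
  {ψ : Finset V → ℝ}

/-- the probability of being free as a value of the target function -/
theorem bb_eq (hh : Haz h H) {D : Finset V} {u : V} (hu : u ∉ D) {t : ℝ} (ht : t ∈ Icc (0 : ℝ) 1) :
    bb h D u t = tgt h u t (insert u D)ᶜ 0 := by
  have hT := hh.tgt u ht
  have hS : IsEv h (fun t z => ∑ w ∈ ({u} : Finset V), h t w z) (fun _ => 0) (fun _ => 0) t
      (tgt h u t) := by simpa using hT.ev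
  have e1 := duality2 hh (hh.lw D) (W := {u}) (by
    rw [Finset.singleton_subset_iff, Finset.mem_compl]; exact hu) ht hS
  have e2 : ex (lw h D t) {u} (fun F => tgt h u t F t) = pr (lw h D t) {u} := by
    rw [← ex_one]; congr 1; funext F; exact hT.end_ F
  have e3 : HW H {u} t = 0 := by
    unfold HW; simp [hh.Hdiag]
  have e4 : Dᶜ \ {u} = (insert u D)ᶜ := by
    rw [compl_sdiff_union, Finset.union_comm, ← Finset.insert_eq]
  rw [e2, e3, neg_zero, Real.exp_zero, one_mul, e4] at e1
  exact e1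

end Pool.Agent.RX.RCG
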