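import Pool.Agent.RX.RCG.Ctx_3
import Pool.Agent.RX.RCG.FinA
import Pool.Agent.RX.RCRS.Level
import Pool.Agent.RX.RCRSHalf.Rb

/-! From the hazards on the extended graph to the scheme (MP_73ccd0_lc, general graphs). -/

set_option linter.unusedSectionVars false

namespace Pool.Agent.RX.RCG

open MeasureTheory Set Pool.Agent.RX.RCRS Pool.Agent.RX.RCRSHalf

section FinB

variable {V : Type} [Fintype V] [DecidableEq V] {G : SimpleGraph V} [Fintype G.edgeSet]
  [DecidableEq G.edgeSet] {x : G.edgeSet → ℝ}
  {h : ℝ → V ⊕ V → V ⊕ V → ℝ} {H : V ⊕ V → V ⊕ V → ℝ → ℝ} {φ : V ⊕ V → V ⊕ V → ℝ → ℝ}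

/-- the free set at time `t` contains the pendant vertex whenever it contains the vertex -/
theorem pend_zero (hS : Sol x h H φ) (v : V) {s : ℝ} (hs : s ∈ Icc (0 : ℝ) 1) :
    ∑ F : Finset (V ⊕ V), lw h ∅ s F *
      (if Sum.inl v ∈ F ∧ Sum.inr v ∉ F then 1 else 0) = 0 := by
  have hμ := hS.hz.lw (∅ : Finset (V ⊕ V))
  have hgen : ∀ t ∈ Icc (0 : ℝ) 1, ∀ F : Finset (V ⊕ V),
      gen (h t) (fun F => if Sum.inl v ∈ F ∧ Sum.inr v ∉ F then (1 : ℝ) else 0) F ≤ 0 := by
    intro t ht F
    unfold gen
    refine mul_nonpos_of_nonneg_of_nonpos (by norm_num)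
      (Finset.sum_nonpos fun a ha => Finset.sum_nonpos fun b hb => ?_)
    beta_reduce
    by_cases hF : Sum.inl v ∈ F ∧ Sum.inr v ∉ F
    · rw [if_pos hF]
      refine mul_nonpos_of_nonneg_of_nonpos (hS.hz.nonneg _ _ _) ?_
      split_ifs <;> norm_num
    · rw [if_neg hF]
      by_cases hG : Sum.inl v ∈ (F.erase a).erase b ∧ Sum.inr v ∉ (F.erase a).erase b
      · -- then one of `a`, `b` is the pendant vertex and the other one is not `v`
        have h1 : Sum.inl v ∈ F := Finset.mem_of_mem_erase (Finset.mem_of_mem_erase hG.1)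
        have h2 : Sum.inr v ∈ F := by
          by_contra hc; exact hF ⟨h1, hc⟩
        have ha1 : a ≠ Sum.inl v := fun e => by
          have := (Finset.mem_erase.1 (Finset.mem_of_mem_erase hG.1)).1
          exact this e.symm
        have hb1 : b ≠ Sum.inl v := fun e => by
          have := (Finset.mem_erase.1 hG.1).1
          exact this e.symm
        have h3 : a = Sum.inr v ∨ b = Sum.inr v := by
          by_contra hc
          push Not at hc
          exact hG.2 (Finset.mem_erase.2 ⟨fun e => hc.2 e.symm,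
            Finset.mem_erase.2 ⟨fun e => hc.1 e.symm, h2⟩⟩)
        have hz : h t a b = 0 := by
          refine hS.z t ht a b ?_
          rcases h3 with rfl | rfl
          · rcases b with b | b
            · simp only [xe]
              rw [if_neg]
              intro e; exact hb1 (by rw [e])
            · rfl
          · rcases a with a | a
            · simp only [xe]
              rw [if_neg]
              intro e; exact ha1 (by rw [e])
            · rfl
        rw [hz]; simp
      · rw [if_neg hG]; simp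
  have key := nonneg_of_forward
    (U := fun t => -∑ F : Finset (V ⊕ V), lw h ∅ t F *
      (if Sum.inl v ∈ F ∧ Sum.inr v ∉ F then 1 else 0))
    (a := 0) (s := 1)
    (fun t ht => (hμ.deriv_sum
      (φ := fun _ F => if Sum.inl v ∈ F ∧ Sum.inr v ∉ F then (1 : ℝ) else 0)
      (φ' := fun _ _ => 0) ht (fun F => hasDerivAt_const _ _)).neg)
    (by
      rw [hμ.start]
      simp only [pt, ite_mul, one_mul, zero_mul, Finset.sum_ite_eq', Finset.mem_univ, if_true]
      simp)
    (fun t ht _ => by
      have : ∑ F : Finset (V ⊕ V), lw h ∅ t F * (gen (h t)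
          ((fun _ F => if Sum.inl v ∈ F ∧ Sum.inr v ∉ F then (1 : ℝ) else 0) t) F
          + (fun _ _ => (0:ℝ)) t F) ≤ 0 := by
        refine Finset.sum_nonpos fun F _ => ?_
        refine mul_nonpos_of_nonneg_of_nonpos (hμ.nonneg F t ht) ?_
        have := hgen t ht F
        simp only [add_zero]
        exact this
      linarith) s hs
  have h2 : 0 ≤ ∑ F : Finset (V ⊕ V), lw h ∅ s F *
      (if Sum.inl v ∈ F ∧ Sum.inr v ∉ F then (1:ℝ) else 0) :=
    Finset.sum_nonneg fun F _ => mul_nonneg (hμ.nonneg F s hs) (by split_ifs <;> norm_num)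
  linarith

theorem pr_pend (hS : Sol x h H φ) {v : V} {W : Finset (V ⊕ V)} (hv : Sum.inl v ∈ W) {s : ℝ}
    (hs : s ∈ Icc (0 : ℝ) 1) :
    pr (lw h ∅ s) (insert (Sum.inr v) W) = pr (lw h ∅ s) W := by
  have hμ := hS.hz.lw (∅ : Finset (V ⊕ V))
  have h0 := pend_zero hS v hs
  rw [Finset.sum_eq_zero_iff_of_nonneg (fun F _ => mul_nonneg (hμ.nonneg F s hs)
    (by split_ifs <;> norm_num))] at h0
  unfold pr
  refine Finset.sum_congr rfl fun F _ => ?_
  by_cases hW : W ⊆ F
  · by_cases hi : Sum.inr v ∈ F
    · rw [if_pos hW, if_pos (Finset.insert_subset hi hW)]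
    · have := h0 F (Finset.mem_univ _)
      rw [if_pos ⟨hW hv, hi⟩, mul_one] at this
      rw [this]; simp
  · rw [if_neg hW, if_neg (fun hh => hW ((Finset.subset_insert _ _).trans hh))]

/-- the law of the matching process satisfies the hierarchy -/
theorem pr_hier2 (hS : Sol x h H φ) :
    Hier (ends G) (hzI2 h) (fun W s => pr (lw h ∅ s) (W.image Sum.inl)) := by
  intro W s hs
  have hh := hS.hz
  have hμ := hh.lw (∅ : Finset (V ⊕ V))
  set W' : Finset (V ⊕ V) := W.image Sum.inl with hW'
  have hprc : ∀ W : Finset (V ⊕ V), ContinuousOn (fun t => pr (lw h ∅ t) W) (Icc 0 1) :=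
    fun W t ht => (hμ.deriv_pr W ht).continuousAt.continuousWithinAt
  have hint : ∀ (f : G.edgeSet ⊕ V) (W : Finset (V ⊕ V)),
      IntegrableOn (fun t => hzI2 h f t * pr (lw h ∅ t) W) (Ico 0 s) := by
    intro f W
    have h1 : IntegrableOn (hzI2 h f) (Ico 0 s) :=
      (hzI2_int hh f).mono_set (Ico_subset_Ico_right hs.2)
    refine Integrable.mul_bdd (c := 1) h1 ?_ ?_
    · exact ((hprc W).mono (Ico_subset_Icc_self.trans
        (Icc_subset_Icc_right hs.2))).aestronglyMeasurable measurableSet_Ico
    · filter_upwards [ae_restrict_mem measurableSet_Ico] with t ht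
      have ht1 : t ∈ Icc (0:ℝ) 1 := ⟨ht.1, ht.2.le.trans hs.2⟩
      rw [Real.norm_eq_abs, abs_of_nonneg (hμ.pr_nonneg W ht1)]
      exact hμ.pr_le_one W ht1
  -- the derivative
  set D : ℝ → ℝ := fun t => ∑ f ∈ Finset.univ.filter (fun f => ¬ Disjoint (ends G f) W),
    hi h f t * pr (lw h ∅ t) ((W ∪ ends G f).image Sum.inl) with hD
  have hder : ∀ t ∈ Icc (0:ℝ) 1, HasDerivAt (fun t => pr (lw h ∅ t) W') (-D t) t := by
    intro t ht
    refine (hμ.deriv_pr W' ht).congr_deriv ?_
    congr 1
    set g : V ⊕ V → V ⊕ V → ℝ := fun a b => if a ∈ W' ∨ b ∈ W' then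
      h t a b * pr (lw h ∅ t) (insert a (insert b W')) else 0 with hg
    have hgs : ∀ a b, g b a = g a b := by
      intro a b
      simp only [hg]
      rw [hh.symm t b a, Finset.insert_comm b a W']
      simp only [or_comm]
    have hgz : ∀ a b, xe x a b = 0 → g a b = 0 := by
      intro a b hab
      simp only [hg]
      rw [hS.z t ht a b hab]; simp
    have e0 : ∑ a, ∑ b, g a b = ∑ a : V, ∑ b : V, g (Sum.inl a) (Sum.inl b)
        + 2 * ∑ v : V, g (Sum.inl v) (Sum.inr v) := by
      rw [Fintype.sum_sum_type]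
      have s1 : ∀ a : V, ∑ b, g (Sum.inl a) b
          = ∑ b : V, g (Sum.inl a) (Sum.inl b) + g (Sum.inl a) (Sum.inr a) := by
        intro a
        rw [Fintype.sum_sum_type]
        congr 1
        rw [Finset.sum_eq_single a]
        · intro b _ hb
          refine hgz _ _ ?_
          simp [xe, Ne.symm hb]
        · intro hh; exact absurd (Finset.mem_univ _) hh
      have s2 : ∀ a : V, ∑ b, g (Sum.inr a) b = g (Sum.inl a) (Sum.inr a) := by
        intro a
        rw [Fintype.sum_sum_type]
        have s3 : ∑ b : V, g (Sum.inr a) (Sum.inr b) = 0 :=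
          Finset.sum_eq_zero fun b _ => hgz _ _ rfl
        rw [s3, add_zero, Finset.sum_eq_single a]
        · exact hgs _ _
        · intro b _ hb
          refine hgz _ _ ?_
          simp [xe, Ne.symm hb]
        · intro hh; exact absurd (Finset.mem_univ _) hh
      rw [Finset.sum_congr rfl fun a _ => s1 a, Finset.sum_congr rfl fun a _ => s2 a,
        Finset.sum_add_distrib]
      ring
    have e1 : ∑ a : V, ∑ b : V, g (Sum.inl a) (Sum.inl b)
        = 2 * ∑ e : G.edgeSet, g (Sum.inl (fe e)) (Sum.inl (se e)) := by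
      rw [sum_pairs (G := G) (fun a b => g (Sum.inl a) (Sum.inl b))
        (fun a b hab => hgz _ _ (xw_nadj x hab)), Finset.mul_sum]
      refine Finset.sum_congr rfl fun e _ => ?_
      rw [hgs (Sum.inl (fe e)) (Sum.inl (se e))]
      ring
    have e2 : (1 / 2) * ∑ a, ∑ b, g a b = ∑ e : G.edgeSet, g (Sum.inl (fe e)) (Sum.inl (se e))
        + ∑ v : V, g (Sum.inl v) (Sum.inr v) := by
      rw [e0, e1]; ring
    have e3 : (1 / 2) * ∑ a, ∑ b, (if a ∈ W' ∨ b ∈ W' then
        h t a b * pr (lw h ∅ t) (insert a (insert b W')) else 0)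
        = (1 / 2) * ∑ a, ∑ b, g a b := rfl
    rw [e3, e2]
    simp only [hD]
    rw [Finset.sum_filter, Fintype.sum_sum_type]
    congr 1
    · refine Finset.sum_congr rfl fun e _ => ?_
      simp only [hg]
      have hd : (¬ Disjoint (ends G (Sum.inl e)) W) ↔
          (Sum.inl (fe e) ∈ W' ∨ Sum.inl (se e) ∈ W') := by
        rw [Finset.not_disjoint_iff, ends_rep]
        simp [hW']
      have hU : (W ∪ ends G (Sum.inl e)).image Sum.inl
          = insert (Sum.inl (fe e)) (insert (Sum.inl (se e)) W') := by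
        rw [ends_rep, Finset.image_union, Finset.image_insert, Finset.image_singleton]
        ext c
        simp only [Finset.mem_union, Finset.mem_insert, Finset.mem_singleton]
        tauto
      rw [hU]
      simp only [hd]
      rfl
    · refine Finset.sum_congr rfl fun v _ => ?_
      simp only [hg]
      have hvr : Sum.inr v ∉ W' := by simp [hW']
      have hvl : (Sum.inl v ∈ W') ↔ v ∈ W := by simp [hW']
      have hd : (¬ Disjoint (ends G (Sum.inr v)) W) ↔ (Sum.inl v ∈ W' ∨ Sum.inr v ∈ W') := by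
        rw [Finset.not_disjoint_iff, hvl]
        constructor
        · rintro ⟨w, hw1, hw2⟩
          rw [ends_inr] at hw1
          subst hw1; exact Or.inl hw2
        · rintro (h1 | h1)
          · exact ⟨v, by rw [ends_inr], h1⟩
          · exact absurd h1 hvr
      simp only [hd]
      by_cases hv : v ∈ W
      · have hvW' : Sum.inl v ∈ W' := hvl.2 hv
        rw [if_pos (Or.inl hvW'), if_pos (Or.inl hvW')]
        have hU : (W ∪ ends G (Sum.inr v)).image Sum.inl = W' := by
          have : W ∪ ends G (Sum.inr v) = W := by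
            refine Finset.union_eq_left.2 fun w hw => ?_
            rw [ends_inr] at hw
            subst hw; exact hv
          rw [this]
        have hI : insert (Sum.inl v) (insert (Sum.inr v) W') = insert (Sum.inr v) W' :=
          Finset.insert_eq_self.2 (Finset.mem_insert_of_mem hvW')
        rw [hU, hI, pr_pend hS hvW' ht]
        rfl
      · have hn : ¬ (Sum.inl v ∈ W' ∨ Sum.inr v ∈ W') := by
          rintro (h1 | h1)
          · exact hv (hvl.1 h1)
          · exact hvr h1
        rw [if_neg hn, if_neg hn]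
  have hDc : ContinuousOn D (Icc 0 1) := by
    simp only [hD]
    refine continuousOn_finsetSum _ fun f _ => ContinuousOn.mul ?_ (hprc _)
    exact (hh.cont _ _).continuousOn
  have hsub : Icc 0 s ⊆ Icc (0:ℝ) 1 := Icc_subset_Icc_right hs.2
  have hFTC := intervalIntegral.integral_eq_sub_of_hasDerivAt (a := 0) (b := s)
    (f := fun t => pr (lw h ∅ t) W') (f' := fun t => -D t)
    (fun t ht => hder t (hsub (by rwa [uIcc_of_le hs.1] at ht)))
    ((hDc.mono hsub).neg.intervalIntegrable_of_Icc hs.1)
  rw [intervalIntegral.integral_neg] at hFTC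
  have h0 : pr (lw h ∅ 0) W' = 1 := by
    rw [hμ.pr_start, if_pos]
    rw [Finset.compl_empty]; exact Finset.subset_univ _
  simp only [h0] at hFTC
  have e4 : ∑ f ∈ Finset.univ.filter (fun f => ¬ Disjoint (ends G f) W),
      ∫ t in Ico 0 s, hzI2 h f t * pr (lw h ∅ t) ((W ∪ ends G f).image Sum.inl)
      = ∫ t in (0:ℝ)..s, D t := by
    rw [← integral_finsetSum _ fun f _ => hint f _, intervalIntegral.integral_of_le hs.1,
      ← integral_Ico_eq_integral_Ioc]
    refine setIntegral_congr_fun measurableSet_Ico fun t ht => ?_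
    have ht1 : t ∈ Ico (0:ℝ) 1 := ⟨ht.1, ht.2.trans_le hs.2⟩
    simp only [hD]
    refine Finset.sum_congr rfl fun f _ => ?_
    unfold hzI2
    rw [cut_of_mem ht1]
  simp only []
  rw [e4]
  linarith

/-- the two hierarchies have the same solution -/
theorem pf_eq_pr2 (hS : Sol x h H φ) (hx : IsFractionalMatching G x)
    [∀ i, IsProbabilityMeasure (lwI2 x h H i)] (W : Finset V) {s : ℝ} (hs : s ∈ Icc (0:ℝ) 1) :
    pf (ends G) (lwI2 x h H) Finset.univ W s = pr (lw h ∅ s) (W.image Sum.inl) := by
  have hh := hS.hz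
  have hμ := hh.lw (∅ : Finset (V ⊕ V))
  obtain ⟨C, hC0, hC⟩ := hzI2_bound (G := G) hh
  refine hier_unique (ends G) hC0 hC (pf_hier2 hS hx) (pr_hier2 hS) ?_ ?_ ?_ W s hs
  · intro f W s hs
    exact integrableOn_mul_pf (ends G) (lwI2 x h H)
      ((hzI2_int hh f).mono_set (Ico_subset_Ico_right hs.2)) _ _
  · intro f W s hs
    have hprc : ContinuousOn (fun t => pr (lw h ∅ t) (W.image Sum.inl)) (Icc 0 1) := fun t ht =>
      (hμ.deriv_pr _ ht).continuousAt.continuousWithinAt
    have h1 : IntegrableOn (hzI2 h f) (Ico 0 s) :=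
      (hzI2_int hh f).mono_set (Ico_subset_Ico_right hs.2)
    refine Integrable.mul_bdd (c := 1) h1 ?_ ?_
    · exact (hprc.mono (Ico_subset_Icc_self.trans
        (Icc_subset_Icc_right hs.2))).aestronglyMeasurable measurableSet_Ico
    · filter_upwards [ae_restrict_mem measurableSet_Ico] with t ht
      have ht1 : t ∈ Icc (0:ℝ) 1 := ⟨ht.1, ht.2.le.trans hs.2⟩
      rw [Real.norm_eq_abs, abs_of_nonneg (hμ.pr_nonneg _ ht1)]
      exact hμ.pr_le_one _ ht1
  · intro W s hs
    have h1 := pf_nonneg (ends G) (lwI2 x h H) Finset.univ W s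
    have h2 := pf_le_one (ends G) (lwI2 x h H) Finset.univ W s
    have h3 := hμ.pr_nonneg (W.image Sum.inl) hs
    have h4 := hμ.pr_le_one (W.image Sum.inl) hs
    rw [abs_le]
    constructor <;> linarith

end FinB

end Pool.Agent.RX.RCG
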