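import Pool.Agent.RX.RCG.Ctx_3
import Pool.Agent.RX.RCRSHalf.Rb

/-! Positivity, single vertices, primitives (MP_73ccd0_lc, general graphs). -/

namespace Pool.Agent.RX.RCG

open Set Finset Pool.Agent.RX.RCRSHalf

set_option linter.unusedSectionVars false

variable {V : Type*} [Fintype V] [DecidableEq V]
variable {h : ℝ → V → V → ℝ} {H : V → V → ℝ → ℝ}

/-- derivative of the free probability of a vertex -/
theorem bb_deriv (hh : Haz h H) (a : V) {s : ℝ} (hs : s ∈ Icc (0 : ℝ) 1) :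
    HasDerivAt (bb h ∅ a) (-∑ b, h s a b * pp h a b s) s :=
  (hh.lw ∅).deriv_single hh.symm hh.diag a hs

theorem bb_start (hh : Haz h H) {D : Finset V} {a : V} (ha : a ∉ D) : bb h D a 0 = 1 := by
  unfold bb
  rw [(hh.lw D).pr_start, if_pos]
  simpa using ha

/-- continuity on the unit interval -/
theorem bb_cont (hh : Haz h H) (D : Finset V) (a : V) : ContinuousOn (bb h D a) (Icc 0 1) :=
  fun s hs => ((hh.lw D).deriv_pr {a} hs).continuousAt.continuousWithinAt

theorem pp_cont (hh : Haz h H) (a b : V) : ContinuousOn (pp h a b) (Icc 0 1) :=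
  fun s hs => ((hh.lw ∅).deriv_pr {a, b} hs).continuousAt.continuousWithinAt

theorem pp_nonneg (hh : Haz h H) (a b : V) {s : ℝ} (hs : s ∈ Icc (0 : ℝ) 1) : 0 ≤ pp h a b s :=
  (hh.lw ∅).pr_nonneg _ hs

/-- the free probability of a vertex from the fluxes -/
theorem bb_eq_of_flux (hh : Haz h H) {t : ℝ} (ht : t ∈ Icc (0 : ℝ) 1) (a : V) {f : V → ℝ → ℝ}
    (hf : ∀ s ∈ Icc 0 t, ∀ b, h s a b * pp h a b s = f b s) {α : ℝ → ℝ}
    (hα : ∀ s ∈ Icc 0 t, HasDerivAt α (-∑ b, f b s) s) (hα0 : α 0 = 1) :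
    ∀ s ∈ Icc 0 t, bb h ∅ a s = α s := by
  intro s hs
  have hd : ∀ r ∈ Icc 0 t, HasDerivAt (fun r => bb h ∅ a r - α r) 0 r := by
    intro r hr
    have h1 := (bb_deriv hh a ⟨hr.1, hr.2.trans ht.2⟩).sub (hα r hr)
    refine h1.congr_deriv ?_
    simp_rw [hf r hr]
    ring
  have h0 : bb h ∅ a 0 - α 0 = 0 := by
    rw [bb_start hh (Finset.notMem_empty a), hα0, sub_self]
  have h1 := nonneg_of_forward (a := 0) (s := t) hd h0.ge (fun _ _ _ => le_rfl) s hs
  have h2 := nonneg_of_forward (a := 0) (s := t) (fun r hr => (hd r hr).neg)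
    (by simp only [Pi.neg_apply, neg_nonneg]; exact h0.le)
    (fun _ _ _ => by simp) s hs
  simp only [Pi.neg_apply] at h1 h2
  linarith

/-- primitives of continuous functions -/
theorem exists_prim {g : ℝ → ℝ} {t : ℝ} (ht : 0 ≤ t) (hg : ContinuousOn g (Icc 0 t)) :
    ∃ Γ : ℝ → ℝ, Γ 0 = 0 ∧ ∀ s ∈ Icc 0 t, HasDerivAt Γ (g s) s := by
  have hcl : Continuous fun s : ℝ => max 0 (min t s) := by fun_prop
  have hg' : Continuous fun s => g (max 0 (min t s)) :=
    hg.comp_continuous hcl fun s => ⟨le_max_left _ _, max_le ht (min_le_left _ _)⟩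
  refine ⟨fun s => ∫ r in (0 : ℝ)..s, g (max 0 (min t r)), by simp, fun s hs => ?_⟩
  have := hg'.integral_hasStrictDerivAt 0 s
  have e : max 0 (min t s) = s := by rw [min_eq_right hs.2, max_eq_right hs.1]
  have h2 := this.hasDerivAt
  simp only [e] at h2
  exact h2

end Pool.Agent.RX.RCG
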