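import Pool.Agent.RX.RCG.Base_1
import Pool.Agent.RX.RCG.Cmp
import Pool.Agent.RX.RCG.Ctx_1

/-! Restart at a positive time: shifted hazards (MP_73ccd0_lc, general graphs). -/

namespace Pool.Agent.RX.RCG

open Set Finset Pool.Agent.RX.RCRSHalf

set_option linter.unusedSectionVars false

variable {V : Type*} [Fintype V] [DecidableEq V]
variable {h : ℝ → V → V → ℝ} {H : V → V → ℝ → ℝ} {X : V → V → ℝ} {M μ : ℝ → ℝ} {t : ℝ}

/-- shifted hazards -/
def sh (h : ℝ → V → V → ℝ) (s : ℝ) : ℝ → V → V → ℝ := fun r => h (s + r)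

/-- shifted cumulative hazards -/
def sH (H : V → V → ℝ → ℝ) (s : ℝ) : V → V → ℝ → ℝ := fun a b r => H a b (s + r) - H a b s

theorem hasDerivAt_shift {f : ℝ → ℝ} {f' s r : ℝ} (hf : HasDerivAt f f' (s + r)) :
    HasDerivAt (fun r => f (s + r)) f' r := hf.comp_const_add s r

theorem Haz.shift (hh : Haz h H) (s : ℝ) : Haz (sh h s) (sH H s) where
  symm t a b := hh.symm _ a b
  diag t a := hh.diag _ a
  nonneg t a b := hh.nonneg _ a b
  cont a b := (hh.cont a b).comp (continuous_const.add continuous_id)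
  bdd := by obtain ⟨C, hC⟩ := hh.bdd; exact ⟨C, fun t a b => hC _ a b⟩
  Hd a b r := (hasDerivAt_shift (hh.Hd a b (s + r))).sub_const _
  H0 a b := by simp [sH]

theorem IsEv.shift {k : ℝ → V → ℝ} {ρ c : ℝ → ℝ} {s1 s : ℝ} {R : Finset V → ℝ → ℝ}
    (hR : IsEv h k ρ c s1 R) (hs : 0 ≤ s) :
    IsEv (sh h s) (fun r => k (s + r)) (fun r => ρ (s + r)) (fun r => c (s + r)) (s1 - s)
      (fun F r => R F (s + r)) where
  deriv F r hr := by
    have := hR.deriv F (s + r) ⟨by linarith [hr.1], by linarith [hr.2]⟩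
    exact hasDerivAt_shift this
  nonneg F r hr := hR.nonneg F (s + r) ⟨by linarith [hr.1], by linarith [hr.2]⟩

/-- uniqueness for the backward equation -/
theorem IsEv.unique (h0 : ∀ t a b, 0 ≤ h t a b) {k : ℝ → V → ℝ}
    {ρ c : ℝ → ℝ} (k0 : ∀ t a, 0 ≤ k t a) (ρ0 : ∀ t, 0 ≤ ρ t) {s1 : ℝ}
    {R R' : Finset V → ℝ → ℝ} (hR : IsEv h k ρ c s1 R) (hR' : IsEv h k ρ c s1 R')
    (he : ∀ F, R F s1 = R' F s1) : ∀ F, ∀ r ∈ Icc 0 s1, R F r = R' F r := by
  intro F
  induction hn : F.card using Nat.strong_induction_on generalizing F with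
  | _ n ih =>
  have hih : ∀ r ∈ Icc 0 s1, ∀ a ∈ F, ∀ b ∈ F,
      R ((F.erase a).erase b) r = R' ((F.erase a).erase b) r := by
    intro r hr a ha b hb
    have hcard : ((F.erase a).erase b).card < n := by
      rw [← hn]
      exact (Finset.card_le_card (Finset.erase_subset _ _)).trans_lt
        (Finset.card_erase_lt_of_mem ha)
    exact ih _ hcard _ rfl r hr
  have hgen : ∀ r ∈ Icc 0 s1, gen (h r) (fun G => R G r) F - gen (h r) (fun G => R' G r) F
      = -(rate (h r) F * (R F r - R' F r)) := by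
    intro r hr
    unfold gen rate
    rw [← mul_sub, ← Finset.sum_sub_distrib, mul_assoc, Finset.sum_mul, ← mul_neg,
      ← Finset.sum_neg_distrib]
    congr 1
    refine Finset.sum_congr rfl fun a ha => ?_
    rw [← Finset.sum_sub_distrib, Finset.sum_mul, ← Finset.sum_neg_distrib]
    refine Finset.sum_congr rfl fun b hb => ?_
    beta_reduce
    rw [hih r hr a ha b hb]
    ring
  have main : ∀ σ : ℝ, ∀ r ∈ Icc 0 s1, 0 ≤ σ * (R F r - R' F r) := by
    intro σ
    refine nonneg_of_backward (U' := fun r => σ *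
      (-(gen (h r) (fun G => R G r) F - (∑ a ∈ F, k r a) * R F r - ρ r * R F r + c r)
      - -(gen (h r) (fun G => R' G r) F - (∑ a ∈ F, k r a) * R' F r - ρ r * R' F r + c r)))
      (fun r hr => ((hR.deriv F r hr).sub (hR'.deriv F r hr)).const_mul σ) ?_ ?_
    · rw [he F]; simp
    · intro r hr hlt
      have e := hgen r hr
      have h1 := rate_nonneg (h0 r) F
      have h2 : 0 ≤ ∑ a ∈ F, k r a := Finset.sum_nonneg fun a _ => k0 r a
      have h3 := ρ0 r
      have h4 : σ * (-(gen (h r) (fun G => R G r) F - (∑ a ∈ F, k r a) * R F r - ρ r * R F r + c r)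
          - -(gen (h r) (fun G => R' G r) F - (∑ a ∈ F, k r a) * R' F r - ρ r * R' F r + c r))
          = (rate (h r) F + ∑ a ∈ F, k r a + ρ r) * (σ * (R F r - R' F r)) := by
        linear_combination (-σ) * e
      rw [h4]
      exact mul_nonpos_of_nonneg_of_nonpos (by positivity) hlt.le
  intro r hr
  have h1 := main 1 r hr
  have h2 := main (-1) r hr
  linarith

/-! ### Values of the closures in the shifted world -/

end Pool.Agent.RX.RCG
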