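import Pool.Agent.RX.RCG.Base_1
import Pool.Agent.RX.RCRSHalf.Infl

/-! One-step influence bounds for solutions of the backward equation with discount and source and
arbitrary terminal values (MP_73ccd0_lc, general graphs). -/

namespace Pool.Agent.RX.RCG

open Set Finset Pool.Agent.RX.RCRSHalf

set_option linter.unusedSectionVars false

variable {V : Type*} [Fintype V] [DecidableEq V]

section steps

variable {h : ℝ → V → V → ℝ} {k : ℝ → V → ℝ} {ρ cs : ℝ → ℝ} {s : ℝ} {R : Finset V → ℝ → ℝ}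

/-- Step P: upper bound on the influence of `a` from lower bounds for the others. -/
theorem stepP (hs : ∀ t a b, h t a b = h t b a) (haa : ∀ t a, h t a a = 0)
    (h0 : ∀ t a b, 0 ≤ h t a b) (k0 : ∀ t a, 0 ≤ k t a) (ρ0 : ∀ t, 0 ≤ ρ t) (c0 : ∀ t, 0 ≤ cs t)
    (hR : IsEv h k ρ cs s R)
    {H0 : Finset V} {a : V} (ha : a ∉ H0) {N : V → ℝ → ℝ}
    (hN1 : ∀ b ∈ H0, ∀ r ∈ Icc 0 s, N b r ≤ 1)
    (hN : ∀ G ⊆ H0, ∀ b ∈ G, ∀ r ∈ Icc 0 s, (1 - N b r) * R G r ≤ R (G.erase b) r)
    {P P' : ℝ → ℝ} (hPd : ∀ r ∈ Icc 0 s, HasDerivAt P (P' r) r)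
    (hPs : ∀ G ⊆ H0, R G s ≤ (1 + P s) * R (insert a G) s)
    (hP0 : ∀ r ∈ Icc 0 s, 0 ≤ P r)
    (hP : ∀ r ∈ Icc 0 s, (1 + P r) * (k r a + ∑ b ∈ H0, h r a b * N b r) ≤ -P' r)
    (hN0 : ∀ b ∈ H0, ∀ r ∈ Icc 0 s, 0 ≤ N b r) :
    ∀ G ⊆ H0, ∀ r ∈ Icc 0 s, R G r ≤ (1 + P r) * R (insert a G) r := by
  intro G
  induction hn : G.card using Nat.strong_induction_on generalizing G with
  | _ n ih =>
  intro hG
  have haG : a ∉ G := fun hh => ha (hG hh)
  have key := nonneg_of_backward (U := fun r => (1 + P r) * R (insert a G) r - R G r)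
    (U' := fun r => P' r * R (insert a G) r + (1 + P r) *
        (-(gen (h r) (fun F => R F r) (insert a G) - (∑ c ∈ insert a G, k r c) * R (insert a G) r
          - ρ r * R (insert a G) r + cs r))
      - (-(gen (h r) (fun F => R F r) G - (∑ c ∈ G, k r c) * R G r - ρ r * R G r + cs r)))
    (a := 0) (s := s) (fun r hr => by
      exact (((hPd r hr).const_add 1).mul (hR.deriv (insert a G) r hr)).sub (hR.deriv G r hr))
    (by have := hPs G hG; linarith) ?_
  · intro r hr
    have := key r hr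
    linarith
  · intro r hr hU
    set U : ℝ := (1 + P r) * R (insert a G) r - R G r with hUdef
    have hRa0 : 0 ≤ R (insert a G) r := hR.nonneg _ r hr
    have hP0r := hP0 r hr
    -- first sum
    rw [gen_insert (h r) (hs r) (haa r) _ haG, Finset.sum_insert haG]
    have t1 : 0 ≤ (1 + P r) * ((1 / 2) * ∑ b ∈ G, ∑ c ∈ G,
        h r b c * (R (insert a ((G.erase b).erase c)) r - R (insert a G) r))
        - gen (h r) (fun F => R F r) G + ((1 / 2) * ∑ b ∈ G, ∑ c ∈ G, h r b c) * U := by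
      unfold gen
      rw [hUdef]
      have : (1 + P r) * ((1 / 2) * ∑ b ∈ G, ∑ c ∈ G,
          h r b c * (R (insert a ((G.erase b).erase c)) r - R (insert a G) r))
          - (1 / 2) * ∑ b ∈ G, ∑ c ∈ G, h r b c * (R ((G.erase b).erase c) r - R G r)
          + ((1 / 2) * ∑ b ∈ G, ∑ c ∈ G, h r b c) * ((1 + P r) * R (insert a G) r - R G r)
          = (1 / 2) * ∑ b ∈ G, ∑ c ∈ G, h r b c *
            ((1 + P r) * R (insert a ((G.erase b).erase c)) r - R ((G.erase b).erase c) r) := by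
        rw [mul_left_comm, ← mul_sub, mul_assoc, ← mul_add]
        congr 1
        rw [Finset.mul_sum, Finset.sum_mul, ← Finset.sum_sub_distrib, ← Finset.sum_add_distrib]
        refine Finset.sum_congr rfl fun b _ => ?_
        rw [Finset.mul_sum, Finset.sum_mul, ← Finset.sum_sub_distrib, ← Finset.sum_add_distrib]
        refine Finset.sum_congr rfl fun c _ => ?_
        ring
      rw [this]
      refine mul_nonneg (by norm_num) (Finset.sum_nonneg fun b hb => Finset.sum_nonneg fun c hc => ?_)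
      refine mul_nonneg (h0 _ _ _) ?_
      have hcard : ((G.erase b).erase c).card < n := by
        rw [← hn]
        exact (Finset.card_le_card (Finset.erase_subset _ _)).trans_lt
          (Finset.card_erase_lt_of_mem hb)
      have := ih _ hcard ((G.erase b).erase c) rfl
        ((Finset.erase_subset _ _).trans ((Finset.erase_subset _ _).trans hG)) r hr
      linarith
    have t2 : 0 ≤ (1 + P r) * ∑ b ∈ G, h r a b * (R (G.erase b) r - R (insert a G) r)
        + (1 + P r) * (∑ b ∈ G, h r a b * N b r) * R (insert a G) r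
        + (1 + P r) * (∑ b ∈ G, h r a b * (1 - N b r)) * U := by
      have : (1 + P r) * ∑ b ∈ G, h r a b * (R (G.erase b) r - R (insert a G) r)
        + (1 + P r) * (∑ b ∈ G, h r a b * N b r) * R (insert a G) r
        + (1 + P r) * (∑ b ∈ G, h r a b * (1 - N b r)) * U
        = (1 + P r) * ∑ b ∈ G, h r a b * ((R (G.erase b) r - R (insert a G) r)
          + N b r * R (insert a G) r + (1 - N b r) * U) := by
        rw [mul_assoc, mul_assoc, ← mul_add, ← mul_add, Finset.sum_mul, Finset.sum_mul,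
          ← Finset.sum_add_distrib, ← Finset.sum_add_distrib]
        congr 1
        refine Finset.sum_congr rfl fun b _ => ?_
        ring
      rw [this]
      refine mul_nonneg (by linarith) (Finset.sum_nonneg fun b hb => mul_nonneg (h0 _ _ _) ?_)
      have e1 := hN G hG b hb r hr
      have e2 := hN1 b (hG hb) r hr
      have e3 : R G r = (1 + P r) * R (insert a G) r - U := by rw [hUdef]; ring
      rw [e3] at e1
      have e4 : 0 ≤ (1 - N b r) * P r * R (insert a G) r :=
        mul_nonneg (mul_nonneg (by linarith) hP0r) hRa0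
      nlinarith
    have t3 : 0 ≤ (∑ b ∈ G, h r a b * (1 - N b r)) := Finset.sum_nonneg fun b hb =>
      mul_nonneg (h0 _ _ _) (by linarith [hN1 b (hG hb) r hr])
    have t4 : 0 ≤ ∑ b ∈ G, ∑ c ∈ G, h r b c :=
      Finset.sum_nonneg fun b _ => Finset.sum_nonneg fun c _ => h0 _ _ _
    have t5 : 0 ≤ ∑ c ∈ G, k r c := Finset.sum_nonneg fun c _ => k0 _ _
    have t6 : (1 + P r) * (k r a + ∑ b ∈ G, h r a b * N b r) ≤ -P' r := by
      refine le_trans ?_ (hP r hr)
      refine mul_le_mul_of_nonneg_left ?_ (by linarith)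
      have : ∑ b ∈ G, h r a b * N b r ≤ ∑ b ∈ H0, h r a b * N b r :=
        Finset.sum_le_sum_of_subset_of_nonneg hG fun b hb _ => mul_nonneg (h0 _ _ _) (hN0 b hb r hr)
      linarith
    have t7 : 0 ≤ (-P' r - (1 + P r) * (k r a + ∑ b ∈ G, h r a b * N b r)) * R (insert a G) r :=
      mul_nonneg (by linarith) hRa0
    have u1 : ((1 / 2) * ∑ b ∈ G, ∑ c ∈ G, h r b c) * U ≤ 0 :=
      mul_nonpos_of_nonneg_of_nonpos (by positivity) hU.le
    have u2 : (1 + P r) * (∑ b ∈ G, h r a b * (1 - N b r)) * U ≤ 0 :=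
      mul_nonpos_of_nonneg_of_nonpos (mul_nonneg (by linarith) t3) hU.le
    have u3 : (∑ c ∈ G, k r c) * U ≤ 0 := mul_nonpos_of_nonneg_of_nonpos t5 hU.le
    have u4 : ρ r * U ≤ 0 := mul_nonpos_of_nonneg_of_nonpos (ρ0 r) hU.le
    have u5 : 0 ≤ P r * cs r := mul_nonneg hP0r (c0 r)
    have eU : R G r = (1 + P r) * R (insert a G) r - U := by rw [hUdef]; ring
    have e8 : (∑ c ∈ G, k r c) * R G r
        = (∑ c ∈ G, k r c) * ((1 + P r) * R (insert a G) r) - (∑ c ∈ G, k r c) * U := by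
      rw [eU]; ring
    have e9 : ρ r * R G r = ρ r * ((1 + P r) * R (insert a G) r) - ρ r * U := by
      rw [eU]; ring
    nlinarith [t1, t2, t7, u1, u2, u3, u4, u5, e8, e9]

/-- Step N: lower bound on the influence of `a` from upper bounds for the others. -/
theorem stepN (hs : ∀ t a b, h t a b = h t b a) (haa : ∀ t a, h t a a = 0)
    (h0 : ∀ t a b, 0 ≤ h t a b) (k0 : ∀ t a, 0 ≤ k t a) (ρ0 : ∀ t, 0 ≤ ρ t) (c0 : ∀ t, 0 ≤ cs t)
    (hR : IsEv h k ρ cs s R)
    {H0 : Finset V} {a : V} (ha : a ∉ H0) {P : V → ℝ → ℝ}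
    (hP0 : ∀ b ∈ H0, ∀ r ∈ Icc 0 s, 0 ≤ P b r)
    (hP : ∀ G ⊆ H0, ∀ b ∈ G, ∀ r ∈ Icc 0 s, R (G.erase b) r ≤ (1 + P b r) * R G r)
    {N N' : ℝ → ℝ} (hNd : ∀ r ∈ Icc 0 s, HasDerivAt N (N' r) r)
    (hN0 : ∀ r ∈ Icc 0 s, 0 ≤ N r) (hN1 : ∀ r ∈ Icc 0 s, N r ≤ 1)
    (hNs : ∀ G ⊆ H0, (1 - N s) * R (insert a G) s ≤ R G s)
    (hN : ∀ r ∈ Icc 0 s, ∑ b ∈ H0, h r a b * P b r ≤ -N' r) :
    ∀ G ⊆ H0, ∀ r ∈ Icc 0 s, (1 - N r) * R (insert a G) r ≤ R G r := by
  intro G
  induction hn : G.card using Nat.strong_induction_on generalizing G with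
  | _ n ih =>
  intro hG
  have haG : a ∉ G := fun hh => ha (hG hh)
  have key := nonneg_of_backward (U := fun r => R G r - (1 - N r) * R (insert a G) r)
    (U' := fun r => (-(gen (h r) (fun F => R F r) G - (∑ c ∈ G, k r c) * R G r
        - ρ r * R G r + cs r))
      - ((-N' r) * R (insert a G) r + (1 - N r) *
        (-(gen (h r) (fun F => R F r) (insert a G) - (∑ c ∈ insert a G, k r c) * R (insert a G) r
          - ρ r * R (insert a G) r + cs r))))
    (a := 0) (s := s) (fun r hr => by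
      exact (hR.deriv G r hr).sub (((hNd r hr).const_sub 1).mul (hR.deriv (insert a G) r hr)))
    (by have := hNs G hG; linarith) ?_
  · intro r hr
    have := key r hr
    linarith
  · intro r hr hU
    set U : ℝ := R G r - (1 - N r) * R (insert a G) r with hUdef
    have hRa0 : 0 ≤ R (insert a G) r := hR.nonneg _ r hr
    have hN0r := hN0 r hr
    have hN1r := hN1 r hr
    rw [gen_insert (h r) (hs r) (haa r) _ haG, Finset.sum_insert haG]
    have t1 : 0 ≤ gen (h r) (fun F => R F r) G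
        - (1 - N r) * ((1 / 2) * ∑ b ∈ G, ∑ c ∈ G,
        h r b c * (R (insert a ((G.erase b).erase c)) r - R (insert a G) r))
        + ((1 / 2) * ∑ b ∈ G, ∑ c ∈ G, h r b c) * U := by
      unfold gen
      rw [hUdef]
      have : (1 / 2) * ∑ b ∈ G, ∑ c ∈ G, h r b c * (R ((G.erase b).erase c) r - R G r)
          - (1 - N r) * ((1 / 2) * ∑ b ∈ G, ∑ c ∈ G,
          h r b c * (R (insert a ((G.erase b).erase c)) r - R (insert a G) r))
          + ((1 / 2) * ∑ b ∈ G, ∑ c ∈ G, h r b c) * (R G r - (1 - N r) * R (insert a G) r)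
          = (1 / 2) * ∑ b ∈ G, ∑ c ∈ G, h r b c *
            (R ((G.erase b).erase c) r - (1 - N r) * R (insert a ((G.erase b).erase c)) r) := by
        rw [mul_left_comm (1 - N r), ← mul_sub, mul_assoc, ← mul_add]
        congr 1
        rw [Finset.mul_sum, Finset.sum_mul, ← Finset.sum_sub_distrib, ← Finset.sum_add_distrib]
        refine Finset.sum_congr rfl fun b _ => ?_
        rw [Finset.mul_sum, Finset.sum_mul, ← Finset.sum_sub_distrib, ← Finset.sum_add_distrib]
        refine Finset.sum_congr rfl fun c _ => ?_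
        ring
      rw [this]
      refine mul_nonneg (by norm_num) (Finset.sum_nonneg fun b hb => Finset.sum_nonneg fun c hc => ?_)
      refine mul_nonneg (h0 _ _ _) ?_
      have hcard : ((G.erase b).erase c).card < n := by
        rw [← hn]
        exact (Finset.card_le_card (Finset.erase_subset _ _)).trans_lt
          (Finset.card_erase_lt_of_mem hb)
      have := ih _ hcard ((G.erase b).erase c) rfl
        ((Finset.erase_subset _ _).trans ((Finset.erase_subset _ _).trans hG)) r hr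
      linarith
    have t2 : 0 ≤ -((1 - N r) * ∑ b ∈ G, h r a b * (R (G.erase b) r - R (insert a G) r))
        + (∑ b ∈ G, h r a b * P b r) * R (insert a G) r
        + (1 - N r) * (∑ b ∈ G, h r a b * (1 + P b r)) * U := by
      have : -((1 - N r) * ∑ b ∈ G, h r a b * (R (G.erase b) r - R (insert a G) r))
        + (∑ b ∈ G, h r a b * P b r) * R (insert a G) r
        + (1 - N r) * (∑ b ∈ G, h r a b * (1 + P b r)) * U
        = ∑ b ∈ G, h r a b * (-((1 - N r) * (R (G.erase b) r - R (insert a G) r))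
          + P b r * R (insert a G) r + (1 - N r) * (1 + P b r) * U) := by
        rw [Finset.mul_sum, ← Finset.sum_neg_distrib, Finset.sum_mul, mul_assoc, Finset.sum_mul,
          Finset.mul_sum, ← Finset.sum_add_distrib, ← Finset.sum_add_distrib]
        refine Finset.sum_congr rfl fun b _ => ?_
        ring
      rw [this]
      refine Finset.sum_nonneg fun b hb => mul_nonneg (h0 _ _ _) ?_
      have e1 := hP G hG b hb r hr
      have e3 : R G r = (1 - N r) * R (insert a G) r + U := by rw [hUdef]; ring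
      rw [e3] at e1
      have hPb := hP0 b (hG hb) r hr
      have e4 : (1 - N r) * R (G.erase b) r
          ≤ (1 - N r) * ((1 + P b r) * ((1 - N r) * R (insert a G) r + U)) :=
        mul_le_mul_of_nonneg_left e1 (by linarith)
      -- (1-N)((1+P)(1-N) - 1) ≤ P
      have e5 : (1 - N r) * ((1 + P b r) * (1 - N r) - 1) ≤ P b r := by
        have f1 : (1 + P b r) * (1 - N r) - 1 ≤ P b r := by nlinarith
        have f2 : (1 - N r) * ((1 + P b r) * (1 - N r) - 1) ≤ (1 - N r) * P b r :=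
          mul_le_mul_of_nonneg_left f1 (by linarith)
        nlinarith
      have e6 : (1 - N r) * ((1 + P b r) * (1 - N r) - 1) * R (insert a G) r
          ≤ P b r * R (insert a G) r := mul_le_mul_of_nonneg_right e5 hRa0
      nlinarith
    have t3 : 0 ≤ (∑ b ∈ G, h r a b * (1 + P b r)) := Finset.sum_nonneg fun b hb =>
      mul_nonneg (h0 _ _ _) (by linarith [hP0 b (hG hb) r hr])
    have t4 : 0 ≤ ∑ b ∈ G, ∑ c ∈ G, h r b c :=
      Finset.sum_nonneg fun b _ => Finset.sum_nonneg fun c _ => h0 _ _ _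
    have t5 : 0 ≤ ∑ c ∈ G, k r c := Finset.sum_nonneg fun c _ => k0 _ _
    have t6 : ∑ b ∈ G, h r a b * P b r ≤ -N' r := by
      refine le_trans ?_ (hN r hr)
      exact Finset.sum_le_sum_of_subset_of_nonneg hG fun b hb _ =>
        mul_nonneg (h0 _ _ _) (hP0 b hb r hr)
    have t7 : 0 ≤ (-N' r - ∑ b ∈ G, h r a b * P b r) * R (insert a G) r :=
      mul_nonneg (by linarith) hRa0
    have t8 : 0 ≤ (1 - N r) * k r a * R (insert a G) r :=
      mul_nonneg (mul_nonneg (by linarith) (k0 _ _)) hRa0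
    have u1 : ((1 / 2) * ∑ b ∈ G, ∑ c ∈ G, h r b c) * U ≤ 0 :=
      mul_nonpos_of_nonneg_of_nonpos (by positivity) hU.le
    have u2 : (1 - N r) * (∑ b ∈ G, h r a b * (1 + P b r)) * U ≤ 0 :=
      mul_nonpos_of_nonneg_of_nonpos (mul_nonneg (by linarith) t3) hU.le
    have u3 : (∑ c ∈ G, k r c) * U ≤ 0 := mul_nonpos_of_nonneg_of_nonpos t5 hU.le
    have u4 : ρ r * U ≤ 0 := mul_nonpos_of_nonneg_of_nonpos (ρ0 r) hU.le
    have u5 : 0 ≤ N r * cs r := mul_nonneg hN0r (c0 r)
    have eU : R G r = (1 - N r) * R (insert a G) r + U := by rw [hUdef]; ring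
    have e8 : (∑ c ∈ G, k r c) * R G r
        = (∑ c ∈ G, k r c) * ((1 - N r) * R (insert a G) r) + (∑ c ∈ G, k r c) * U := by
      rw [eU]; ring
    have e9 : ρ r * R G r = ρ r * ((1 - N r) * R (insert a G) r) + ρ r * U := by
      rw [eU]; ring
    nlinarith [t1, t2, t7, t8, u1, u2, u3, u4, u5, e8, e9]

end steps

end Pool.Agent.RX.RCG
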